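import Mathlib
import Pool.Agent.LeoT.Stmts
import Pool.Agent.Helper68_LeoC.Com

/-!
# Squad leot: module NAB
-/

set_option autoImplicit false

open Module NumberField
open Pool.Agent.LeoC.H68

namespace Pool.Agent.LeoT.H5

/-- NAB -/
theorem nab : NabStmt := by
  intro k K _ _ _ _ _ m t s θ h hns hab
  haveI hfd : FiniteDimensional k K := FiniteDimensional.of_finrank_pos (by rw [h.deg]; omega)
  haveI : IsGalois ℚ K := hab.toIsGalois
  haveI : IsGalois k K := IsGalois.tower_top_of_isGalois ℚ k K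
  have hex : ∃ σ : K ≃ₐ[k] K, σ θ ≠ θ := by
    by_contra hcon
    push Not at hcon
    have h1 : θ ∈ (⊥ : IntermediateField k K) := (IsGalois.mem_bot_iff_fixed θ).2 hcon
    obtain ⟨y, hy⟩ := IntermediateField.mem_bot.1 h1
    exact h.nk y hy
  obtain ⟨σ, hσ⟩ := hex
  have hroot := h.root
  have hσr : (σ θ) ^ 3 - 3 * σ θ = algebraMap k K t := by
    have h1 := congrArg σ hroot
    rw [map_sub, map_mul, map_pow, AlgEquiv.commutes, map_ofNat] at h1
    exact h1
  have hq : (σ θ) ^ 2 + θ * σ θ + θ ^ 2 - 3 = 0 := by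
    have h1 : (σ θ - θ) * ((σ θ) ^ 2 + θ * σ θ + θ ^ 2 - 3) = 0 := by
      linear_combination hσr - hroot
    exact (mul_eq_zero.1 h1).resolve_left (sub_ne_zero.2 hσ)
  have hrel : algebraMap k K t ^ 2 + algebraMap k K (m : k) * algebraMap k K s ^ 2 = 4 := by
    rw [← map_pow, ← map_pow, ← map_mul, ← map_add, h.rel, map_ofNat]
  have hs := h.sK
  refine nsq_cubic h.deg hns ((2 * σ θ + θ) * (θ ^ 2 - 1) / algebraMap k K s) ?_
  rw [div_pow, div_eq_iff (pow_ne_zero 2 hs), map_mul, map_ofNat]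
  rw [← hroot] at hrel
  linear_combination 4 * (θ ^ 2 - 1) ^ 2 * hq - 3 * hrel

end Pool.Agent.LeoT.H5
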